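import Pool.Agent.Lib.MP_4f0fb4_co.CvMain

/-- For every `k ≥ 34` there is a `k`-connected graph whose vertices are covered by two cycles and
in which any two cycles that cover the vertices have fewer than `k` vertices in common. -/
theorem Pool.Agent.Results.MP_4f0fb4_co.CoveringFormFalse.result (k : ℕ) (hk : 34 ≤ k) :
    ∃ (V : Type) (_ : Fintype V) (_ : DecidableEq V) (G : SimpleGraph V), k < Fintype.card V ∧
      (∀ S : Finset V, S.card < k → (G.induce ((↑S : Set V)ᶜ)).Connected) ∧
      (∃ (u v : V) (p : G.Walk u u) (q : G.Walk v v), p.IsCycle ∧ q.IsCycle ∧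
        ∀ w, w ∈ p.support ∨ w ∈ q.support) ∧
      ∀ (u v : V) (p : G.Walk u u) (q : G.Walk v v), p.IsCycle → q.IsCycle →
        (∀ w, w ∈ p.support ∨ w ∈ q.support) →
        (p.support.toFinset ∩ q.support.toFinset).card < k :=
  Pool.Agent.Lib.MP_4f0fb4_co.RZ.fails_of_le k hk
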