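import Mathlib
import Pool.Agent.Lib.MP_4f0fb4_co.Final

namespace Pool.Agent.Results.MP_4f0fb4_co.Linear23

open Pool.Agent.Lib.MP_4f0fb4_co

/-- Two longest cycles of a `k`-connected graph, `k ≥ 2`, have at least `(k - 4) / 23` vertices in
common. The hypotheses are those of the frozen statement of Smith's conjecture. -/
theorem result :
    ∀ (V : Type) [Fintype V] [DecidableEq V] (G : SimpleGraph V) (k : ℕ),
      2 ≤ k → k < Fintype.card V →
      (∀ S : Finset V, S.card < k → (G.induce ((↑S : Set V)ᶜ)).Connected) →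
      ∀ (u v : V) (p : G.Walk u u) (q : G.Walk v v),
        p.IsCycle → q.IsCycle →
        (∀ (w : V) (r : G.Walk w w), r.IsCycle → r.length ≤ p.length) →
        (∀ (w : V) (r : G.Walk w w), r.IsCycle → r.length ≤ q.length) →
        k ≤ 23 * (p.support.toFinset ∩ q.support.toFinset).card + 4 := by
  intro V _ _ G k hk hV hK u v p q hp hq h1 h2
  obtain ⟨L, l1, l2, l3⟩ := longest_of hp h1
  obtain ⟨D, d1, d2, d3⟩ := longest_of hq h2
  have e1 : p.support.toFinset = L.toFinset := by ext x; simp only [List.mem_toFinset, l3]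
  have e2 : q.support.toFinset = D.toFinset := by ext x; simp only [List.mem_toFinset, d3]
  rw [e1, e2]
  exact main hk hV (kconn_of hK) l1 d1 l2 d2

end Pool.Agent.Results.MP_4f0fb4_co.Linear23
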