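import Pool.Agent.Lib.MP_4f0fb4_co.RwF

/-- For every `k ≥ 9` there is a finite Tutte `k`-connected matroid with at least `2 k` elements and
two disjoint largest circuits `C`, `D` with `r (C ∪ D) > r C + r D - k + 1`. -/
theorem Pool.Agent.Results.MP_4f0fb4_co.MatroidFormFalse.result (k : ℕ) (hk : 9 ≤ k) :
    ∃ (α : Type) (M : Matroid α), M.E.Finite ∧ 2 * k ≤ M.E.ncard ∧
      (∀ l : ℕ, l < k → ∀ X Y : Set α, Disjoint X Y → X ∪ Y = M.E →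
        (l : ℕ∞) ≤ X.encard → (l : ℕ∞) ≤ Y.encard → M.eRank + l ≤ M.eRk X + M.eRk Y) ∧
      ∃ C D : Set α, M.IsCircuit C ∧ M.IsCircuit D ∧ Disjoint C D ∧
        (∀ Z, M.IsCircuit Z → Z.encard ≤ C.encard ∧ Z.encard ≤ D.encard) ∧
        M.eRk C + M.eRk D + 1 < M.eRk (C ∪ D) + k :=
  let ⟨α, M, h1, h2, h3, h4⟩ := Pool.Agent.Lib.MP_4f0fb4_co.RW.main k hk
  ⟨α, M, h1, h2, fun l hl X Y _ => h3 l hl X Y, h4⟩
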