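import Mathlib
import Pool.Agent.Lib.MP_4f0fb4_co.SqMain

namespace Pool.Agent.Results.MP_4f0fb4_co.QuadraticRange

open Pool.Agent.Lib.MP_4f0fb4_co

/-- Smith's conjecture for `k`-connected graphs whose longest cycles have at most `k ^ 2 / 16000`
vertices. The other hypotheses and the conclusion are those of the frozen statement. -/
theorem result :
    ∀ (V : Type) [Fintype V] [DecidableEq V] (G : SimpleGraph V) (k : ℕ),
      2 ≤ k → k < Fintype.card V →
      (∀ S : Finset V, S.card < k → (G.induce ((↑S : Set V)ᶜ)).Connected) →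
      ∀ (u v : V) (p : G.Walk u u) (q : G.Walk v v),
        p.IsCycle → q.IsCycle →
        (∀ (w : V) (r : G.Walk w w), r.IsCycle → r.length ≤ p.length) →
        (∀ (w : V) (r : G.Walk w w), r.IsCycle → r.length ≤ q.length) →
        16000 * p.length ≤ k ^ 2 →
        k ≤ (p.support.toFinset ∩ q.support.toFinset).card := by
  intro V _ _ G k hk hV hK u v p q hp hq h1 h2 hc
  obtain ⟨L, l1, l2, l3⟩ := longest_of hp h1
  obtain ⟨D, d1, d2, d3⟩ := longest_of hq h2
  have e1 : p.support.toFinset = L.toFinset := by ext x; simp only [List.mem_toFinset, l3]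
  have e2 : q.support.toFinset = D.toFinset := by ext x; simp only [List.mem_toFinset, d3]
  have e3 : L.length ≤ p.length := by
    obtain ⟨n1, a, e, w1, w2⟩ := l1.cyc
    obtain ⟨w, rfl⟩ := w1.walk
    simpa using h1 e (.cons w2 w) (SimpleGraph.Walk.isCycle_iff_isPath_tail_and_le_length.2
      ⟨by simpa [SimpleGraph.Walk.isPath_def] using n1, by simpa using l2⟩)
  rw [e1, e2]
  exact sq_main hk hV (kconn_of hK) l1 d1 l2 d2 (by omega)

end Pool.Agent.Results.MP_4f0fb4_co.QuadraticRange
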